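import Pool.Agent.H32.N6H.Targets

/-!
# Good hyperplanes over an algebraically closed field

In the eigenbasis the discriminant of the section takes prescribed values at the roots of the
discriminant, so it can be the product of X - j for j < n.
-/

set_option autoImplicit false

open Polynomial Matrix

namespace Pool.Agent.H35.N6H

open Pool.Agent.H32.N6H

theorem dC {E : Type} [Field E] (a : E) (p : E[X]) : (C a * p).degree ≤ p.degree := by
  refine (degree_mul_le _ _).trans ?_
  calc (C a).degree + p.degree ≤ 0 + p.degree := by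
        gcongr
        exact degree_C_le
    _ = p.degree := zero_add _

theorem pf_DIG (hEIG : T_EIG) (hFRM : T_FRM) (hDFC : T_DFC) (hSDM : T_SDM) : T_DIG := by
  intro E _ _ _ n A B hSD
  obtain ⟨t, k, ht, hAk, hort, hb, hli⟩ := hEIG E (n + 1) A B hSD
  have hdet : B.det ≠ 0 := (hSDM E E (RingHom.id E) (n + 1) A B).2.1 hSD
  have hfac := hDFC E (n + 1) A B t k hdet hli hAk
  set Q0 : E[X] := ∏ j : Fin n, (X - C (((j : ℕ) : E))) with hQ0
  have hsep : Q0.Separable := by
    rw [hQ0, separable_prod_X_sub_C_iff]
    intro i j hij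
    have : ((i : ℕ) : E) = ((j : ℕ) : E) := hij
    exact Fin.ext (Nat.cast_injective this)
  have hdeg : Q0.natDegree = n := by
    rw [hQ0, natDegree_prod_of_monic _ _ (fun j _ => monic_X_sub_C _)]
    simp only [natDegree_X_sub_C, Finset.sum_const, Finset.card_univ, Fintype.card_fin,
      smul_eq_mul, mul_one]
  have hmon : Q0.Monic := monic_prod_of_monic _ _ (fun j _ => monic_X_sub_C _)
  have hprod : ∀ i : Fin (n + 1), ∏ j ∈ Finset.univ.erase i, (t j - t i) ≠ 0 := by
    intro i
    rw [Finset.prod_ne_zero_iff]
    intro j hj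
    rw [sub_ne_zero]
    exact fun h => (Finset.ne_of_mem_erase hj) (ht h)
  have hy : ∀ i : Fin (n + 1), ∃ y : E, y ^ 2 =
      Q0.eval (t i) / (B.det * (k i ⬝ᵥ (B *ᵥ k i)) * ∏ j ∈ Finset.univ.erase i, (t j - t i)) := by
    intro i
    obtain ⟨z, hz⟩ := IsAlgClosed.exists_pow_nat_eq
      (Q0.eval (t i) / (B.det * (k i ⬝ᵥ (B *ᵥ k i)) * ∏ j ∈ Finset.univ.erase i, (t j - t i)))
      (by norm_num : 0 < 2)
    exact ⟨z, hz⟩
  choose y hy using hy
  have hF := hFRM E (n + 1) A B t k hSD.sA hSD.sB hdet hfac hAk hort y
  refine ⟨∑ i, y i • (B *ᵥ k i), ?_⟩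
  have hmain : pl A B (∑ i, y i • (B *ᵥ k i)) = Q0 := by
    rw [hF]
    apply Polynomial.eq_of_degrees_lt_of_eval_index_eq (s := Finset.univ) (v := t) ht.injOn
    · rw [Finset.card_univ, Fintype.card_fin]
      refine lt_of_le_of_lt (dC _ _) ?_
      refine lt_of_le_of_lt (degree_sum_le _ _) ?_
      rw [Finset.sup_lt_iff (by exact WithBot.bot_lt_coe _)]
      intro i _
      refine lt_of_le_of_lt (dC _ _) ?_
      refine lt_of_le_of_lt (degree_prod_le _ _) ?_
      refine lt_of_le_of_lt (b := ((n : ℕ) : WithBot ℕ)) ?_ ?_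
      · calc ∑ j ∈ Finset.univ.erase i, (C (t j) - X : E[X]).degree
            ≤ ∑ j ∈ Finset.univ.erase i, (1 : WithBot ℕ) := by
              apply Finset.sum_le_sum
              intro j _
              refine (degree_sub_le _ _).trans ?_
              simp only [degree_X]
              exact max_le (degree_C_le.trans (by norm_num)) le_rfl
          _ = ((n : ℕ) : WithBot ℕ) := by
              rw [Finset.sum_const, Finset.card_erase_of_mem (Finset.mem_univ i),
                Finset.card_univ, Fintype.card_fin]
              simp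
      · exact_mod_cast Nat.lt_succ_self n
    · rw [Finset.card_univ, Fintype.card_fin, degree_eq_natDegree hmon.ne_zero, hdeg]
      exact_mod_cast Nat.lt_succ_self n
    · intro i _
      have hsum : eval (t i) (∑ i, C (y i ^ 2 * (k i ⬝ᵥ (B *ᵥ k i))) *
          ∏ j ∈ Finset.univ.erase i, (C (t j) - X)) =
          y i ^ 2 * (k i ⬝ᵥ (B *ᵥ k i)) * ∏ j ∈ Finset.univ.erase i, (t j - t i) := by
        rw [eval_finsetSum, Finset.sum_eq_single i]
        · rw [eval_mul, eval_C, eval_prod]
          simp only [eval_sub, eval_C, eval_X]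
        · intro l _ hl
          rw [eval_mul, eval_prod]
          have : ∏ j ∈ Finset.univ.erase l, eval (t i) (C (t j) - X) = 0 := by
            apply Finset.prod_eq_zero (i := i)
            · rw [Finset.mem_erase]
              exact ⟨fun h => hl h.symm, Finset.mem_univ i⟩
            · simp
          rw [this, mul_zero]
        · intro h
          exact absurd (Finset.mem_univ i) h
      rw [eval_mul, eval_C, hsum, hy i]
      have h1 := hb i
      have h2 := hprod i
      field_simp
  unfold Gd
  rw [hmain]
  exact ⟨hsep, hdeg⟩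

end Pool.Agent.H35.N6H
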